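import Mathlib

namespace Pool.Agent.Results.MP_0ab4d0_co.Seven

/-- property P i: every two distinct vertices are joined by a path with i vertices -/
def P {n : ℕ} (G : SimpleGraph (Fin n)) (i : ℕ) : Prop :=
  ∀ u v : Fin n, u ≠ v → ∃ l : List (Fin n), l.length = i ∧ l.Nodup ∧ l.head? = some u ∧
    l.getLast? = some v ∧ l.IsChain G.Adj

/-- the closure of S -/
def closure (n : ℕ) (S : Set ℕ) : Set ℕ :=
  {j | 2 ≤ j ∧ j ≤ n ∧ ∀ G : SimpleGraph (Fin n), (∀ i ∈ S, P G i) → P G j}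

def E : List (Fin 7 × Fin 7) :=
  [(0, 1), (0, 3), (0, 5), (1, 2), (1, 3), (1, 5), (1, 6), (2, 3), (2, 4), (4, 6), (5, 6)]

def G0 : SimpleGraph (Fin 7) where
  Adj a b := (a, b) ∈ E ∨ (b, a) ∈ E
  symm := ⟨fun _ _ h => h.symm⟩
  loopless := ⟨by decide⟩

instance : DecidableRel G0.Adj := fun a b => inferInstanceAs (Decidable ((a, b) ∈ E ∨ (b, a) ∈ E))

def C4 : Fin 7 → Fin 7 → List (Fin 7) :=
  ![![[], [0, 3, 2, 1], [0, 1, 3, 2], [0, 1, 2, 3], [0, 1, 2, 4], [0, 1, 6, 5], [0, 1, 5, 6]],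
    ![[1, 2, 3, 0], [], [1, 0, 3, 2], [1, 5, 0, 3], [1, 3, 2, 4], [1, 3, 0, 5], [1, 0, 5, 6]],
    ![[2, 1, 3, 0], [2, 3, 0, 1], [], [2, 1, 0, 3], [2, 1, 6, 4], [2, 1, 0, 5], [2, 1, 5, 6]],
    ![[3, 1, 5, 0], [3, 0, 5, 1], [3, 0, 1, 2], [], [3, 1, 2, 4], [3, 0, 1, 5], [3, 0, 1, 6]],
    ![[4, 2, 1, 0], [4, 2, 3, 1], [4, 6, 1, 2], [4, 2, 1, 3], [], [4, 2, 1, 5], [4, 2, 1, 6]],
    ![[5, 1, 3, 0], [5, 0, 3, 1], [5, 0, 1, 2], [5, 0, 1, 3], [5, 1, 2, 4], [], [5, 0, 1, 6]],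
    ![[6, 1, 3, 0], [6, 4, 2, 1], [6, 1, 3, 2], [6, 1, 0, 3], [6, 1, 2, 4], [6, 1, 0, 5], []]]

def C6 : Fin 7 → Fin 7 → List (Fin 7) :=
  ![![[], [0, 3, 2, 4, 6, 1], [0, 1, 5, 6, 4, 2], [0, 1, 6, 4, 2, 3], [0, 3, 1, 5, 6, 4], [0, 1, 2, 4, 6, 5], [0, 1, 3, 2, 4, 6]],
    ![[1, 2, 4, 6, 5, 0], [], [1, 0, 5, 6, 4, 2], [1, 5, 6, 4, 2, 3], [1, 3, 0, 5, 6, 4], [1, 3, 2, 4, 6, 5], [1, 0, 3, 2, 4, 6]],
    ![[2, 3, 1, 6, 5, 0], [2, 3, 0, 5, 6, 1], [], [2, 1, 6, 5, 0, 3], [2, 1, 0, 5, 6, 4], [2, 3, 0, 1, 6, 5], [2, 1, 3, 0, 5, 6]],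
    ![[3, 2, 1, 6, 5, 0], [3, 2, 4, 6, 5, 1], [3, 0, 1, 6, 4, 2], [], [3, 0, 1, 5, 6, 4], [3, 1, 2, 4, 6, 5], [3, 0, 1, 2, 4, 6]],
    ![[4, 2, 1, 6, 5, 0], [4, 2, 3, 0, 5, 1], [4, 6, 1, 0, 3, 2], [4, 2, 1, 5, 0, 3], [], [4, 2, 1, 3, 0, 5], [4, 2, 1, 0, 5, 6]],
    ![[5, 6, 1, 2, 3, 0], [5, 6, 4, 2, 3, 1], [5, 0, 1, 6, 4, 2], [5, 1, 6, 4, 2, 3], [5, 0, 1, 3, 2, 4], [], [5, 0, 1, 2, 4, 6]],
    ![[6, 4, 2, 1, 3, 0], [6, 4, 2, 3, 0, 1], [6, 1, 5, 0, 3, 2], [6, 4, 2, 1, 0, 3], [6, 1, 0, 3, 2, 4], [6, 1, 2, 3, 0, 5], []]]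

lemma p4 : P G0 4 := by
  have : ∀ u v : Fin 7, u ≠ v → (C4 u v).length = 4 ∧ (C4 u v).Nodup ∧ (C4 u v).head? = some u ∧
    (C4 u v).getLast? = some v ∧ (C4 u v).IsChain G0.Adj := by decide +kernel
  exact fun u v h => ⟨_, this u v h⟩

lemma p6 : P G0 6 := by
  have : ∀ u v : Fin 7, u ≠ v → (C6 u v).length = 6 ∧ (C6 u v).Nodup ∧ (C6 u v).head? = some u ∧
    (C6 u v).getLast? = some v ∧ (C6 u v).IsChain G0.Adj := by decide +kernel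
  exact fun u v h => ⟨_, this u v h⟩

lemma p5 : ¬ P G0 5 := by
  intro h
  obtain ⟨l, hl, h1, h2, h3, h4⟩ := h 0 1 (by decide)
  have : ∀ a b c : Fin 7, ¬ ([0, a, b, c, 1].Nodup ∧ [0, a, b, c, 1].IsChain G0.Adj) := by
    decide +kernel
  match l, hl with
  | [x, a, b, c, y], _ =>
    simp only [List.head?_cons, Option.some.injEq] at h2
    simp only [List.getLast?_cons_cons, List.getLast?_singleton, Option.some.injEq] at h3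
    subst h2 h3
    exact this a b c ⟨h1, h4⟩

theorem result : ∃ (n : ℕ) (S : Set ℕ), 4 ≤ n ∧ S ⊆ Set.Icc 4 n ∧
    ∃ a b c : ℕ, a < b ∧ b < c ∧ a ∈ closure n S ∧ c ∈ closure n S ∧ b ∉ closure n S := by
  refine ⟨7, {4, 6}, by norm_num, ?_, 4, 5, 6, by norm_num, by norm_num,
    ⟨by norm_num, by norm_num, fun G h => h 4 (by simp)⟩,
    ⟨by norm_num, by norm_num, fun G h => h 6 (by simp)⟩, fun h => p5 (h.2.2 G0 ?_)⟩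
  · rintro x (rfl | rfl) <;> simp
  · rintro x (rfl | rfl)
    · exact p4
    · exact p6

end Pool.Agent.Results.MP_0ab4d0_co.Seven
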